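import Pool.Agent.N666.TM.Diag

set_option autoImplicit false
set_option linter.unusedSectionVars false

/-! # Exact prime divisors in a bounded range; one null set for countably many conditions -/

namespace Pool.Agent.N650.TH

open Finset Filter Pool.Agent.Y722.HS Pool.Agent.N666.TM
open Pool.Agent.N666.VE (primes)

section
variable {ι : Type} [Fintype ι] [DecidableEq ι]

/-- Almost all members of a well distributed sequence have, for every coordinate, an exact prime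
divisor above `D` and below `y` which does not divide the others. -/
theorem ex_dens_bdd {S : ℕ → Finset ℕ} {x : ℕ → ι → ℤ} {κ : ℝ} (hκ : 0 < κ)
    (hw : ∃ N₀ : ℕ, ∀ N : ℕ, N₀ ≤ N → ∀ H : ℕ, (H : ℝ) ≤ (N : ℝ) ^ κ → Well (S N) x H)
    (D : ℕ) (ε : ℝ) (hε : 0 < ε) : ∃ y N₀ : ℕ, ∀ N : ℕ, N₀ ≤ N →
      ({n : ℕ | n ∈ S N ∧ ¬ ∀ l : ι, ∃ p : ℕ, p.Prime ∧ D < p ∧ p < y ∧ Ex l p (x n)}.ncard : ℝ) ≤
        ε * (S N).card := by
  classical
  obtain ⟨N₁, hN₁⟩ := hw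
  set r := Fintype.card ι with hr
  set ε' : ℝ := ε / (2 * (r + 1)) with hε'
  have hε'0 : 0 < ε' := by positivity
  -- the primes
  obtain ⟨y, hy⟩ : ∃ y : ℕ, 2 ^ r * (2 / ε') ≤ ∑ p ∈ (Finset.range y).filter Nat.Prime,
      (if D < p then 1 / (p : ℝ) else 0) := by
    have hns : ¬ Summable (fun p : ℕ => if p.Prime then (if D < p then 1 / (p : ℝ) else 0) else 0) := by
      intro hsum
      apply not_summable_one_div_on_primes
      refine (summable_congr_cofinite ?_).mp hsum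
      rw [Filter.eventuallyEq_iff_exists_mem]
      refine ⟨{p | D < p}, ?_, ?_⟩
      · rw [Nat.cofinite_eq_atTop]
        exact Ioi_mem_atTop D
      · intro p hp
        simp only [Set.mem_ofPred_eq] at hp
        by_cases h : p.Prime
        · simp [Set.indicator, h, hp]
        · simp [Set.indicator, h]
    have hnn : ∀ p : ℕ, 0 ≤ (if p.Prime then (if D < p then 1 / (p : ℝ) else 0) else 0) := by
      intro p
      split_ifs <;> positivity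
    have ht := (not_summable_iff_tendsto_nat_atTop_of_nonneg hnn).mp hns
    obtain ⟨y, hy⟩ := (ht.eventually_ge_atTop (2 ^ r * (2 / ε'))).exists
    refine ⟨y, ?_⟩
    rw [Finset.sum_filter]
    exact hy
  set P : Finset ℕ := ((Finset.range y).filter Nat.Prime).filter (fun p => D < p) with hP
  have hPsum : 2 ^ r * (2 / ε') ≤ ∑ p ∈ P, 1 / (p : ℝ) := by
    rw [hP, Finset.sum_filter]
    exact hy
  have hPm : ∀ p ∈ P, p < y ∧ p.Prime ∧ D < p := by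
    intro p hp
    simp only [hP, Finset.mem_filter, Finset.mem_range] at hp
    exact ⟨hp.1.1, hp.1.2, hp.2⟩
  -- large N
  have hev : ∀ᶠ N : ℕ in atTop, ((y ^ 4 + ⌈4 / ε'⌉₊ : ℕ) : ℝ) ≤ (N : ℝ) ^ κ := by
    have h1 : Tendsto (fun N : ℕ => (N : ℝ) ^ κ) atTop atTop :=
      (tendsto_rpow_atTop hκ).comp tendsto_natCast_atTop_atTop
    exact h1.eventually_ge_atTop _
  obtain ⟨N₂, hN₂⟩ := eventually_atTop.mp hev
  refine ⟨y, max N₁ N₂, fun N hN => ?_⟩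
  set H : ℕ := y ^ 4 + ⌈4 / ε'⌉₊ with hH
  have hws := hN₁ N ((le_max_left _ _).trans hN) H (hN₂ N ((le_max_right _ _).trans hN))
  have hbad : ∀ l : ι, (((S N).filter fun n => ∀ p ∈ P, red (p ^ 2) (x n) ∉ Om l p).card : ℝ) ≤
      (2 * ε') * (S N).card := by
    intro l
    have hμ : 2 / ε' ≤ ∑ p ∈ P, dens (Om l p) := by
      calc 2 / ε' = 1 / 2 ^ r * (2 ^ r * (2 / ε')) := by field_simp
        _ ≤ 1 / 2 ^ r * ∑ p ∈ P, 1 / (p : ℝ) := by gcongr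
        _ = ∑ p ∈ P, 1 / 2 ^ r * (1 / (p : ℝ)) := by rw [Finset.mul_sum]
        _ ≤ _ := Finset.sum_le_sum fun p hp => dens_Om l p (hPm p hp).2.1.two_le
    have hμ0 : 0 < ∑ p ∈ P, dens (Om l p) := lt_of_lt_of_le (by positivity) hμ
    have h1 := turan hws P (fun p => p ^ 2) (fun p hp => Nat.pos_of_ne_zero (by
        have := (hPm p hp).2.1.pos
        positivity)) (fun p hp p' hp' hne =>
        Nat.Coprime.pow 2 2 ((Nat.coprime_primes (hPm p hp).2.1 (hPm p' hp').2.1).mpr hne))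
      (fun p hp p' hp' => by
        have a1 : p ^ 2 ≤ y ^ 2 := Nat.pow_le_pow_left (hPm p hp).1.le 2
        have a2 : p' ^ 2 ≤ y ^ 2 := Nat.pow_le_pow_left (hPm p' hp').1.le 2
        calc p ^ 2 * p' ^ 2 ≤ y ^ 2 * y ^ 2 := Nat.mul_le_mul a1 a2
          _ = y ^ 4 := by ring
          _ ≤ 2 * H + 1 := by omega)
      (fun p => Om l p) _ rfl hμ0
    refine h1.trans ?_
    have h2 : 2 / (∑ p ∈ P, dens (Om l p)) ≤ ε' := by
      rw [div_le_iff₀ hμ0]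
      rw [div_le_iff₀ hε'0] at hμ
      linarith
    have h3 : (4 : ℝ) / (2 * H + 1) ≤ ε' := by
      have h4 : 4 / ε' ≤ (H : ℝ) := (Nat.le_ceil _).trans (by exact_mod_cast (by omega : ⌈4 / ε'⌉₊ ≤ H))
      rw [div_le_iff₀ hε'0] at h4
      rw [div_le_iff₀ (by positivity)]
      nlinarith
    gcongr
    linarith
  have hsub : {n : ℕ | n ∈ S N ∧ ¬ ∀ l : ι, ∃ p : ℕ, p.Prime ∧ D < p ∧ p < y ∧ Ex l p (x n)} ⊆
      ↑(Finset.univ.biUnion fun l : ι => (S N).filter fun n => ∀ p ∈ P, red (p ^ 2) (x n) ∉ Om l p) := by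
    rintro n ⟨hn, hn'⟩
    push Not at hn'
    obtain ⟨l, hl⟩ := hn'
    simp only [Finset.coe_biUnion, Set.mem_iUnion, Finset.mem_coe, Finset.mem_univ, Finset.mem_filter,
      exists_prop, true_and]
    refine ⟨l, hn, fun p hp => ?_⟩
    rw [mem_Om l p (hPm p hp).2.1.one_lt.le]
    exact hl p (hPm p hp).2.1 (hPm p hp).2.2 (hPm p hp).1
  have h1 : ({n : ℕ | n ∈ S N ∧ ¬ ∀ l : ι, ∃ p : ℕ, p.Prime ∧ D < p ∧ p < y ∧ Ex l p (x n)}.ncard : ℝ) ≤
      ((Finset.univ.biUnion fun l : ι =>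
        (S N).filter fun n => ∀ p ∈ P, red (p ^ 2) (x n) ∉ Om l p).card : ℝ) := by
    have := Set.ncard_le_ncard hsub (Finset.finite_toSet _)
    rw [Set.ncard_coe_finset] at this
    exact_mod_cast this
  refine h1.trans ?_
  have h2 : ((Finset.univ.biUnion fun l : ι =>
        (S N).filter fun n => ∀ p ∈ P, red (p ^ 2) (x n) ∉ Om l p).card : ℝ) ≤
      ∑ l : ι, (((S N).filter fun n => ∀ p ∈ P, red (p ^ 2) (x n) ∉ Om l p).card : ℝ) := by
    exact_mod_cast Finset.card_biUnion_le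
  refine h2.trans ?_
  refine (Finset.sum_le_sum fun l _ => hbad l).trans ?_
  rw [Finset.sum_const, Finset.card_univ, nsmul_eq_mul, ← hr]
  have h3 : (r : ℝ) * (2 * ε') ≤ ε := by
    rw [hε']
    have : (r : ℝ) * (2 * (ε / (2 * (r + 1)))) = ε * (r / (r + 1)) := by field_simp
    rw [this]
    have h4 : (r : ℝ) / (r + 1) ≤ 1 := by rw [div_le_one (by positivity)]; linarith
    nlinarith
  calc (r : ℝ) * (2 * ε' * (S N).card) = (r * (2 * ε')) * (S N).card := by ring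
    _ ≤ _ := by gcongr

end

/-- For `l < k + 1` there is a prime `p` above `D` with `G p ≤ h t` which divides the integer part of
`P_l(t)` exactly, and does not divide the others. -/
def GoodB (F : ℕ → Finset ℝ) (a : ℕ → ℝ → ℝ) (h : ℕ → ℕ) (D : ℕ) (G : ℕ → ℕ) (k t : ℕ) : Prop :=
  ∀ l < k + 1, ∃ p : ℕ, p.Prime ∧ D < p ∧ G p ≤ h t ∧ (p : ℤ) ∣ flo F a l t ∧
    ¬ (p : ℤ) ^ 2 ∣ flo F a l t ∧ ∀ i < k + 1, i ≠ l → ¬ (p : ℤ) ∣ flo F a i t

theorem NullIn.union {S : ℕ → Finset ℕ} {E₁ E₂ : Set ℕ} (h₁ : NullIn S E₁) (h₂ : NullIn S E₂) :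
    NullIn S (E₁ ∪ E₂) := by
  intro ε hε
  obtain ⟨N₁, a₁⟩ := h₁ (ε / 2) (by positivity)
  obtain ⟨N₂, a₂⟩ := h₂ (ε / 2) (by positivity)
  refine ⟨max N₁ N₂, fun N hN => ?_⟩
  have b₁ := a₁ N ((le_max_left _ _).trans hN)
  have b₂ := a₂ N ((le_max_right _ _).trans hN)
  have hsub : {t : ℕ | t ∈ S N ∧ t ∈ E₁ ∪ E₂} =
      {t : ℕ | t ∈ S N ∧ t ∈ E₁} ∪ {t : ℕ | t ∈ S N ∧ t ∈ E₂} := by
    ext t
    simp only [Set.mem_ofPred_eq, Set.mem_union]
    tauto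
  have h3 := Set.ncard_union_le {t : ℕ | t ∈ S N ∧ t ∈ E₁} {t : ℕ | t ∈ S N ∧ t ∈ E₂}
  rw [hsub]
  have h4 : (({t : ℕ | t ∈ S N ∧ t ∈ E₁} ∪ {t : ℕ | t ∈ S N ∧ t ∈ E₂}).ncard : ℝ) ≤
      ({t : ℕ | t ∈ S N ∧ t ∈ E₁}.ncard : ℝ) + ({t : ℕ | t ∈ S N ∧ t ∈ E₂}.ncard : ℝ) := by
    exact_mod_cast h3
  linarith

theorem NullIn.mono {S : ℕ → Finset ℕ} {E₁ E₂ : Set ℕ} (h₂ : NullIn S E₂) (hsub : E₁ ⊆ E₂) :
    NullIn S E₁ := by
  intro ε hε
  obtain ⟨N₂, a₂⟩ := h₂ ε hε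
  refine ⟨N₂, fun N hN => le_trans ?_ (a₂ N hN)⟩
  have : {t : ℕ | t ∈ S N ∧ t ∈ E₁} ⊆ {t : ℕ | t ∈ S N ∧ t ∈ E₂} := fun t ht => ⟨ht.1, hsub ht.2⟩
  exact_mod_cast Set.ncard_le_ncard this ((S N).finite_toSet.subset fun t ht => ht.1)

theorem nullIn_empty (S : ℕ → Finset ℕ) : NullIn S ∅ := by
  intro ε hε
  refine ⟨0, fun N _ => ?_⟩
  have : {t : ℕ | t ∈ S N ∧ t ∈ (∅ : Set ℕ)} = ∅ := by ext t; simp
  rw [this, Set.ncard_empty, Nat.cast_zero]
  exact mul_nonneg hε.le (Nat.cast_nonneg _)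

theorem NullIn.biUnion {S : ℕ → Finset ℕ} {E : ℕ → Set ℕ} (k : ℕ) (h : ∀ j < k, NullIn S (E j)) :
    NullIn S {t | ∃ j < k, t ∈ E j} := by
  induction k with
  | zero => exact NullIn.mono (nullIn_empty S) (fun t ⟨j, hj, _⟩ => absurd hj (Nat.not_lt_zero j))
  | succ k ih =>
    refine NullIn.mono (NullIn.union (ih fun j hj => h j (by omega)) (h k (by omega))) ?_
    rintro t ⟨j, hj, ht⟩
    rcases Nat.lt_succ_iff_lt_or_eq.mp hj with h1 | h1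
    · exact Or.inl ⟨j, h1, ht⟩
    · exact Or.inr (h1 ▸ ht)

section
variable {F : ℕ → Finset ℝ} {a : ℕ → ℝ → ℝ} {c : ℕ → ℝ}

theorem null_goodB (hP : ∀ i, c i ∈ F i ∧ (∀ t ∈ F i, t ≤ c i) ∧ 0 < c i ∧ (∀ m : ℕ, c i ≠ m) ∧
      0 < a i (c i))
    (hc : Function.Injective c) {h : ℕ → ℕ} (hh : Tendsto h atTop atTop) (D : ℕ) (G : ℕ → ℕ) (k : ℕ) :
    NullIn (fun N => Ioc N (2 * N)) {t : ℕ | ¬ GoodB F a h D G k t} ∧
      NullIn primes {t : ℕ | ¬ GoodB F a h D G k t} := by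
  obtain ⟨⟨κ₁, hκ₁, g₁⟩, ⟨κ₂, hκ₂, g₂⟩⟩ := fl_well (ι := Fin (k + 1))
    (F := fun i => F i) (a := fun i => a i) (c := fun i => c i) (fun i => hP i)
    (hc.comp Fin.val_injective)
  have key : ∀ (S : ℕ → Finset ℕ), (∀ N, S N ⊆ Ioc N (2 * N)) → ∀ κ : ℝ, 0 < κ →
      (∃ N₀ : ℕ, ∀ N : ℕ, N₀ ≤ N → ∀ H : ℕ, (H : ℝ) ≤ (N : ℝ) ^ κ →
        Well (S N) (fl (fun i : Fin (k + 1) => F i) (fun i => a i)) H) →
      NullIn S {t : ℕ | ¬ GoodB F a h D G k t} := by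
    intro S hS κ hκ hw ε hε
    obtain ⟨y, N₀, hN₀⟩ := ex_dens_bdd hκ hw D ε hε
    obtain ⟨M, hM⟩ := eventually_atTop.mp
      (hh.eventually_ge_atTop (∑ p ∈ Finset.range y, G p))
    refine ⟨max N₀ M, fun N hN => le_trans ?_ (hN₀ N ((le_max_left _ _).trans hN))⟩
    have hsub : {t : ℕ | t ∈ S N ∧ t ∈ {t : ℕ | ¬ GoodB F a h D G k t}} ⊆
        {n : ℕ | n ∈ S N ∧ ¬ ∀ l : Fin (k + 1), ∃ p : ℕ, p.Prime ∧ D < p ∧ p < y ∧
          Ex l p (fl (fun i : Fin (k + 1) => F i) (fun i => a i) n)} := by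
      rintro t ⟨ht, hg⟩
      refine ⟨ht, fun hall => hg ?_⟩
      intro l hl
      obtain ⟨p, h1, h2, hpy, h3, h4, h5⟩ := hall ⟨l, hl⟩
      have hMt : M ≤ t := by
        have h6 := (Finset.mem_Ioc.mp (hS N ht)).1
        have h7 := (le_max_right N₀ M).trans hN
        omega
      refine ⟨p, h1, h2, ?_, h3, h4, fun i hi hne => h5 ⟨i, hi⟩ ?_⟩
      · exact le_trans (Finset.single_le_sum (f := G) (fun _ _ => Nat.zero_le _)
          (Finset.mem_range.mpr hpy)) (hM t hMt)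
      · intro heq
        exact hne (congrArg Fin.val heq)
    exact_mod_cast Set.ncard_le_ncard hsub ((Finset.finite_toSet _).subset fun t ht => ht.1)
  exact ⟨key _ (fun N => Finset.Subset.refl _) κ₁ hκ₁ g₁,
    key _ (fun N => Finset.filter_subset _ _) κ₂ hκ₂ g₂⟩

/-- One null set for countably many functions `G` and bounds `D`. -/
theorem one_null_set_bdd (hP : ∀ i, c i ∈ F i ∧ (∀ t ∈ F i, t ≤ c i) ∧ 0 < c i ∧ (∀ m : ℕ, c i ≠ m) ∧
      0 < a i (c i))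
    (hc : Function.Injective c) {h : ℕ → ℕ} (hh : Tendsto h atTop atTop)
    {Φ : Type*} [Countable Φ] (D : Φ → ℕ) (G : Φ → ℕ → ℕ) :
    ∃ E : Set ℕ, NullIn (fun N => Ioc N (2 * N)) E ∧ NullIn primes E ∧
      ∀ φ k, {t : ℕ | t ∉ E ∧ ¬ GoodB F a h (D φ) (G φ) k t}.Finite := by
  classical
  obtain ⟨f, hf⟩ := exists_injective_nat Φ
  -- the sequence of all conditions
  set B : ℕ → ℕ → Set ℕ := fun k j => {t | ∃ φ, f φ = j ∧ ¬ GoodB F a h (D φ) (G φ) k t} with hB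
  have hBn : ∀ k j, NullIn (fun N => Ioc N (2 * N)) (B k j) ∧ NullIn primes (B k j) := by
    intro k j
    by_cases hj : ∃ φ, f φ = j
    · obtain ⟨φ, hφ⟩ := hj
      have hsub : B k j ⊆ {t : ℕ | ¬ GoodB F a h (D φ) (G φ) k t} := by
        rintro t ⟨φ', hφ', ht⟩
        have : φ' = φ := hf (hφ'.trans hφ.symm)
        subst this
        exact ht
      have h1 := null_goodB hP hc hh (D φ) (G φ) k
      exact ⟨NullIn.mono h1.1 hsub, NullIn.mono h1.2 hsub⟩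
    · have hsub : B k j ⊆ ∅ := by
        rintro t ⟨φ', hφ', ht⟩
        exact absurd ⟨φ', hφ'⟩ hj
      exact ⟨NullIn.mono (nullIn_empty _) hsub, NullIn.mono (nullIn_empty _) hsub⟩
  have hmonoB : ∀ k k' j, k ≤ k' → B k j ⊆ B k' j := by
    rintro k k' j hkk t ⟨φ, hφ, ht⟩
    refine ⟨φ, hφ, fun hgood => ht ?_⟩
    intro l hl
    obtain ⟨p, h1, h2, h3, h4, h5, h6⟩ := hgood l (by omega)
    exact ⟨p, h1, h2, h3, h4, h5, fun i hi => h6 i (by omega)⟩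
  set E : ℕ → Set ℕ := fun k => {t | ∃ j < k, t ∈ B k j} with hE
  have hmono : Monotone E := by
    rintro k k' hkk t ⟨j, hj, ht⟩
    exact ⟨j, lt_of_lt_of_le hj hkk, hmonoB k k' j hkk ht⟩
  obtain ⟨E', h1, h2, h3⟩ := diag hmono (S₁ := fun N => Ioc N (2 * N)) (S₂ := primes)
    (fun N => Finset.Subset.refl _)
    (fun N => Finset.filter_subset _ _) (fun k => NullIn.biUnion k fun j _ => (hBn k j).1)
    (fun k => NullIn.biUnion k fun j _ => (hBn k j).2)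
  refine ⟨E', h1, h2, fun φ k => (h3 (max k (f φ + 1))).subset ?_⟩
  rintro t ⟨ht, ht'⟩
  refine ⟨⟨f φ, by omega, hmonoB k _ _ (le_max_left _ _) ⟨φ, rfl, ht'⟩⟩, ht⟩

end

end Pool.Agent.N650.TH
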