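import Pool.Agent.N650.TH.Bdd
import Pool.Agent.Y226.ZV.Fam

set_option autoImplicit false
set_option linter.unusedSectionVars false

/-! # Families of curves at algebraic parameters with thin highest coefficients -/

namespace Pool.Agent.N650.TH

open Finset Filter Polynomial Pool.Agent.N666.TM
open Pool.Agent.N666.VE (primes)
open Pool.Agent.Y226 Pool.Agent.Y226.ZV
open H294ZP

instance countable_QA : Countable (algebraicClosure ℚ ℂ) := by
  have h : {x : ℂ | IsAlgebraic ℚ x}.Countable := Algebraic.countable ℚ ℂ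
  have h2 : Countable {x : ℂ | IsAlgebraic ℚ x} := h.to_subtype
  refine Function.Injective.countable (f := fun x : algebraicClosure ℚ ℂ =>
    (⟨x.1, mem_algebraicClosure_iff.mp x.2⟩ : {x : ℂ | IsAlgebraic ℚ x})) ?_
  intro x y hxy
  have h3 : x.1 = y.1 := by simpa using hxy
  exact Subtype.ext h3

/-- the data of a family -/
def Data : Type :=
  Σ n : ℕ, Finset (MvPolynomial (Fin n) (algebraicClosure ℚ ℂ)) × (Fin n → ℚ[X]) × (Fin n → ℚ[X]) ×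
    Finset (algebraicClosure ℚ ℂ)

theorem countable_mv (n : ℕ) : Countable (MvPolynomial (Fin n) (algebraicClosure ℚ ℂ)) := by
  rw [← Cardinal.mk_le_aleph0_iff]
  refine (MvPolynomial.cardinalMk_le_max).trans ?_
  simp only [max_le_iff]
  refine ⟨⟨?_, ?_⟩, le_rfl⟩
  · exact Cardinal.mk_le_aleph0
  · exact Cardinal.mk_le_aleph0

theorem countable_pol : Countable ℚ[X] := by
  rw [← Cardinal.mk_le_aleph0_iff]
  refine (Polynomial.cardinalMk_le_max).trans ?_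
  simp only [max_le_iff]
  exact ⟨Cardinal.mk_le_aleph0, le_rfl⟩

instance : Countable Data := by
  have h1 := countable_mv
  have h2 := countable_pol
  unfold Data
  infer_instance

/-- the coefficients of an integral polynomial -/
theorem aeval_coeff (f : ℤ[X]) (t : ℂ) (s : ℕ) (hs : f.natDegree = s + 1) :
    aeval t f = ∑ k ∈ Finset.range (s + 2), ((f.coeff k : ℤ) : ℂ) * t ^ k := by
  rw [aeval_eq_sum_range, hs]
  refine Finset.sum_congr rfl fun k _ => ?_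
  rw [zsmul_eq_mul]

theorem main {F : ℕ → Finset ℝ} {a : ℕ → ℝ → ℝ} {c : ℕ → ℝ}
    (hP : ∀ i, c i ∈ F i ∧ (∀ t ∈ F i, t ≤ c i) ∧ 0 < c i ∧ (∀ m : ℕ, c i ≠ m) ∧ 0 < a i (c i))
    (hc : Function.Injective c) {h : ℕ → ℕ} (hh : Tendsto h atTop atTop) :
    ∃ E : Set ℕ, NullIn (fun N => Ioc N (2 * N)) E ∧ NullIn primes E ∧
      ∀ (n : ℕ) (I : Ideal (MvPolynomial (Fin n) (algebraicClosure ℚ ℂ))) (_ : I.IsPrime)
        (_ : ∀ (i : Fin n) (b : algebraicClosure ℚ ℂ), MvPolynomial.X i - MvPolynomial.C b ∉ I)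
        (_ : ∀ i j : Fin n, i ≠ j → ∃ (a b : ℕ) (g : ℕ → ℕ → algebraicClosure ℚ ℂ),
          g 0 0 ≠ 0 ∧ g a 0 ≠ 0 ∧ g 0 b ≠ 0 ∧ g a b ≠ 0 ∧
          ∑ u ∈ Finset.range (a + 1), ∑ v ∈ Finset.range (b + 1),
            MvPolynomial.C (g u v) * MvPolynomial.X i ^ u * MvPolynomial.X j ^ v ∈ I)
        (lam mu : Fin n → ℚ[X]) (_ : ∀ i, 0 < (lam i).natDegree)
        (_ : ∀ i, (mu i).degree < (lam i).degree)
        (Γ : Finset ℂ) (_ : ∀ γ ∈ Γ, IsAlgebraic ℚ γ) (i j : ℕ) (_ : i ≠ j),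
        {m : ℕ | m ∉ E ∧ ¬ ∀ f : ℤ[X], 0 < f.natDegree → flo F a i m ∣ f.leadingCoeff →
          (∃ u : ℕ, f.nextCoeff ∣ flo F a j m ^ u) → ∀ t : ℂ,
          (minpoly ℚ t).natDegree = f.natDegree → aeval t f = 0 →
            ZPG Γ (h m) (fam I lam mu t)}.Finite := by
  classical
  have hloc : ∀ φ : Data, ∃ (D : ℕ) (G : ℕ → ℕ),
      (Ideal.span (φ.2.1 : Set (MvPolynomial (Fin φ.1) (algebraicClosure ℚ ℂ)))).IsPrime →
      (∀ (i : Fin φ.1) (b : algebraicClosure ℚ ℂ), MvPolynomial.X i - MvPolynomial.C b ∉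
        Ideal.span (φ.2.1 : Set (MvPolynomial (Fin φ.1) (algebraicClosure ℚ ℂ)))) →
      (∀ i j : Fin φ.1, i ≠ j → ∃ (a b : ℕ) (g : ℕ → ℕ → algebraicClosure ℚ ℂ),
          g 0 0 ≠ 0 ∧ g a 0 ≠ 0 ∧ g 0 b ≠ 0 ∧ g a b ≠ 0 ∧
          ∑ u ∈ Finset.range (a + 1), ∑ v ∈ Finset.range (b + 1),
            MvPolynomial.C (g u v) * MvPolynomial.X i ^ u * MvPolynomial.X j ^ v ∈
              Ideal.span (φ.2.1 : Set (MvPolynomial (Fin φ.1) (algebraicClosure ℚ ℂ)))) →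
      (∀ i, 0 < (φ.2.2.1 i).natDegree) → (∀ i, (φ.2.2.2.1 i).degree < (φ.2.2.1 i).degree) →
      ∀ p : ℕ, p.Prime → D < p → ∀ (s : ℕ) (a : ℕ → ℤ), (p : ℤ) ∣ a (s + 1) →
        ¬ (p : ℤ) ∣ a s → a (s + 1) ≠ 0 → ∀ t : ℂ, (minpoly ℚ t).natDegree = s + 1 →
        ∑ k ∈ Finset.range (s + 2), (a k : ℂ) * t ^ k = 0 →
        ZPG (φ.2.2.2.2.image (algebraMap (algebraicClosure ℚ ℂ) ℂ)) (G p)
          (fam (Ideal.span (φ.2.1 : Set (MvPolynomial (Fin φ.1) (algebraicClosure ℚ ℂ))))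
            φ.2.2.1 φ.2.2.2.1 t) := by
    rintro ⟨n, S, lam, mu, Γ⟩
    by_cases hyp : (Ideal.span (S : Set (MvPolynomial (Fin n) (algebraicClosure ℚ ℂ)))).IsPrime ∧
      (∀ (i : Fin n) (b : algebraicClosure ℚ ℂ), MvPolynomial.X i - MvPolynomial.C b ∉
        Ideal.span (S : Set (MvPolynomial (Fin n) (algebraicClosure ℚ ℂ)))) ∧
      (∀ i j : Fin n, i ≠ j → ∃ (a b : ℕ) (g : ℕ → ℕ → algebraicClosure ℚ ℂ),
          g 0 0 ≠ 0 ∧ g a 0 ≠ 0 ∧ g 0 b ≠ 0 ∧ g a b ≠ 0 ∧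
          ∑ u ∈ Finset.range (a + 1), ∑ v ∈ Finset.range (b + 1),
            MvPolynomial.C (g u v) * MvPolynomial.X i ^ u * MvPolynomial.X j ^ v ∈
              Ideal.span (S : Set (MvPolynomial (Fin n) (algebraicClosure ℚ ℂ)))) ∧
      (∀ i, 0 < (lam i).natDegree) ∧ (∀ i, (mu i).degree < (lam i).degree)
    · obtain ⟨k1, k2, k3, k4, k5⟩ := hyp
      obtain ⟨D, hD⟩ := fam_prime (Ideal.span (S : Set (MvPolynomial (Fin n) (algebraicClosure ℚ ℂ))))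
        k1 k2 k3 lam mu k4 k5 (Γ.image (algebraMap (algebraicClosure ℚ ℂ) ℂ)) (by
          intro γ hγ
          obtain ⟨b, -, rfl⟩ := Finset.mem_image.mp hγ
          exact isAlgebraic_algebraMap_iff (algebraMap (algebraicClosure ℚ ℂ) ℂ).injective |>.mpr
            (Algebra.IsAlgebraic.isAlgebraic b))
      have hpr : ∀ p : ℕ, ∃ G : ℕ, p.Prime → D < p → ∀ (s : ℕ) (a : ℕ → ℤ), (p : ℤ) ∣ a (s + 1) →
          ¬ (p : ℤ) ∣ a s → a (s + 1) ≠ 0 → ∀ t : ℂ, (minpoly ℚ t).natDegree = s + 1 →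
          ∑ k ∈ Finset.range (s + 2), (a k : ℂ) * t ^ k = 0 →
          ZPG (Γ.image (algebraMap (algebraicClosure ℚ ℂ) ℂ)) G (fam (Ideal.span (S : Set
            (MvPolynomial (Fin n) (algebraicClosure ℚ ℂ)))) lam mu t) := by
        intro p
        by_cases h : p.Prime ∧ D < p
        · obtain ⟨G, hG⟩ := hD p h.1 h.2
          exact ⟨G, fun _ _ => hG⟩
        · exact ⟨0, fun h1 h2 => absurd ⟨h1, h2⟩ h⟩
      choose G hG using hpr
      exact ⟨D, G, fun _ _ _ _ _ => hG⟩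
    · refine ⟨0, fun _ => 0, fun k1 k2 k3 k4 k5 => absurd ⟨k1, k2, k3, k4, k5⟩ hyp⟩
  choose D G hDG using hloc
  obtain ⟨E, h1, h2, h3⟩ := one_null_set_bdd hP hc hh D G
  refine ⟨E, h1, h2, ?_⟩
  intro n I hI hconst hgen lam mu hlam hmu Γ hΓ i j hij
  obtain ⟨S, rfl⟩ : ∃ S : Finset (MvPolynomial (Fin n) (algebraicClosure ℚ ℂ)), Ideal.span (S : Set _) = I :=
    (IsNoetherian.noetherian I)
  obtain ⟨Γ', rfl⟩ : ∃ Γ' : Finset (algebraicClosure ℚ ℂ),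
      Γ'.image (algebraMap (algebraicClosure ℚ ℂ) ℂ) = Γ := by
    refine ⟨Γ.preimage (algebraMap (algebraicClosure ℚ ℂ) ℂ)
      (algebraMap (algebraicClosure ℚ ℂ) ℂ).injective.injOn, ?_⟩
    ext γ
    simp only [Finset.mem_image, Finset.mem_preimage]
    constructor
    · rintro ⟨b, hb, rfl⟩
      exact hb
    · intro hγ
      exact ⟨⟨γ, mem_algebraicClosure_iff.mpr (hΓ γ hγ)⟩, hγ, rfl⟩
  refine (h3 ⟨n, S, lam, mu, Γ'⟩ (max i j)).subset ?_
  rintro m ⟨hmE, hm⟩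
  refine ⟨hmE, fun hgood => hm ?_⟩
  obtain ⟨p, hp, hDp, hGp, hpi, -, hpj⟩ := hgood i (by omega)
  have hpj' := hpj j (by omega) hij.symm
  intro f hf0 hfl hfn t ht hft
  obtain ⟨s, hs⟩ : ∃ s, f.natDegree = s + 1 := ⟨f.natDegree - 1, by omega⟩
  have hne : f ≠ 0 := by
    rintro rfl
    simp at hf0
  have hlead : f.coeff (s + 1) = f.leadingCoeff := by rw [← hs]; rfl
  have hnext : f.coeff s = f.nextCoeff := by
    rw [nextCoeff_of_natDegree_pos hf0, hs]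
    rfl
  refine (hDG ⟨n, S, lam, mu, Γ'⟩ hI hconst hgen hlam hmu p hp hDp s (fun k => f.coeff k) ?_ ?_ ?_ t
    (by rw [ht, hs]) ?_).mono hGp
  · simp only [hlead]
    exact hpi.trans hfl
  · simp only [hnext]
    intro hd
    obtain ⟨u, hu⟩ := hfn
    exact hpj' ((Nat.prime_iff_prime_int.mp hp).dvd_of_dvd_pow (hd.trans hu))
  · simp only [hlead]
    exact leadingCoeff_ne_zero.mpr hne
  · rw [← aeval_coeff f t s hs]
    exact hft

end Pool.Agent.N650.TH
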