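import Pool.Agent.N650.TH.Nf
import Pool.Agent.Y160.T6.All

set_option autoImplicit false
set_option linter.unusedSectionVars false

/-! # Thin sequences of superelliptic surfaces -/

namespace Pool.Agent.N650.TH

open Finset Filter Polynomial Pool.Agent.N666.TM
open Pool.Agent.N666.VE (primes)
open Pool.Agent.Y160.T6
open Pool.Agent.Y160.SL (ManyWorks)
open Pool.Agent.Y160.T3 (place_R)

section thin

variable {N : ℕ} {S : ℕ → Finset ℕ} {x : ℕ → Fin N → ℤ} {κ : ℝ}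

theorem bd_thin (hκ : 0 < κ)
    (hw : ∃ N₀ : ℕ, ∀ M : ℕ, N₀ ≤ M → ∀ H : ℕ, (H : ℝ) ≤ (M : ℝ) ^ κ → Well (S M) x H)
    {p R : ℕ} (hp : 0 < p) (hR : 0 < R) (k : Type) [Field k] [NumberField k]
    (T : ∀ (F : Type) [Field F], (Fin N → F) → Prop) (h : CntT p R N T) :
    NullIn S {m | x m ∈ Bd k T} := by
  classical
  obtain ⟨K₀, N₀, hK⟩ := h
  refine thin_sieve hκ hw (D := K₀ + 1) (Nat.succ_pos _) (Bd k T) fun B => ?_
  obtain ⟨P, hP, hPB, hσ, hRP⟩ := place_R k (R := p * R) (Nat.mul_pos hp hR) (B + N₀)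
  have : Fintype (ZMod P) := ZMod.fintype P
  have hcard : Fintype.card (ZMod P) = P := ZMod.card P
  have h1 := hK (ZMod P) (by rw [hcard]; exact (Dvd.intro _ rfl).trans hRP)
    (by rw [hcard]; exact (Dvd.intro_left _ rfl).trans hRP) (by rw [hcard]; omega)
  rw [hcard] at h1
  set A : Set (Fin N → ZMod P) := {v | T (ZMod P) v} with hA
  have hfin : A.Finite := Set.toFinite _
  refine ⟨P, by omega, hP.out, hfin.toFinset, ?_, ?_⟩
  · rw [Set.ncard_eq_toFinset_card A hfin] at h1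
    rw [Fintype.card_fin]
    exact h1.trans (Nat.mul_le_mul (Nat.le_succ _) le_rfl)
  · intro v hv hmem
    rw [Set.Finite.mem_toFinset] at hmem
    exact hv P hσ hmem

end thin

open Pool.Agent.Y160.EN (ManyD St_cond St_irr St_R St_S)

theorem exc_thin {p q n D r R : ℕ} {S : ℕ → Finset ℕ} {x : ℕ → Fin (n + (D + (r + 2))) → ℤ} {κ : ℝ}
    (hκ : 0 < κ)
    (hw : ∃ N₀ : ℕ, ∀ M : ℕ, N₀ ≤ M → ∀ H : ℕ, (H : ℝ) ≤ (M : ℝ) ^ κ → Well (S M) x H)
    (hp : p.Prime) (hq0 : 0 < q) (hn : 0 < n) (hD : 2 ≤ D) (hnr : n ≤ r + 1) (hqr : q * r < n + D)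
    (hR : Odd R) (hcop' : q.Coprime (R * (n + D))) (k : Type) [Field k] [NumberField k] :
    NullIn S {m | x m ∈ Exc p q n D r R k} := by
  have hI : St_irr := Pool.Agent.Y971.EN.irr2 Pool.Agent.Y100.EN.t_irr1
  have a1 := bd_thin hκ hw hp.pos hR.pos k (TU R n D r) (cU hD hR)
  have a2 := bd_thin hκ hw hp.pos hR.pos k (TH q R n D r) (cH hI hn hD hR hq0 hnr hqr hcop')
  have a3 := bd_thin hκ hw hp.pos hR.pos k (TC n D r) cC
  have a4 : NullIn S (⋃ i, {m | x m ∈ Bd k (TP R n D r i)}) :=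
    NullIn.iUnion fun i => bd_thin hκ hw hp.pos hR.pos k (TP R n D r i) (cP hR i)
  have a5 : NullIn S (⋃ y : Fin n × (Fin n → Fin p), {m | x m ∈ Bd k (TR p n D r y.1 y.2)}) :=
    NullIn.iUnion fun y => bd_thin hκ hw hp.pos hR.pos k (TR p n D r y.1 y.2)
      (cR Pool.Agent.Y430.EN.t_R hp hD y.1 y.2)
  have a6 : NullIn S (⋃ ε : Fin n → Fin p, {m | x m ∈ Bd k (TS p q n D r ε)}) :=
    NullIn.iUnion fun ε => bd_thin hκ hw hp.pos hR.pos k (TS p q n D r ε)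
      (cS Pool.Agent.Y737.EN.t_S hp hD hq0 hqr ε)
  refine NullIn.mono (NullIn.union a1 (NullIn.union a2 (NullIn.union a3 (NullIn.union a4
    (NullIn.union a5 a6))))) ?_
  intro m hm
  unfold Exc at hm
  simp only [Set.mem_ofPred_eq, Set.mem_union, Set.mem_iUnion] at hm ⊢
  exact hm

section congr

variable {k k' : Type} [Field k] [Field k'] (e : k ≃+* k')

include e in
theorem bd_congr {N : ℕ} (T : ∀ (F : Type) [Field F], (Fin N → F) → Prop) : Bd k T = Bd k' T := by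
  ext v
  constructor
  · intro h P _ hσ
    exact h P (hσ.map fun σ => σ.comp e.toRingHom)
  · intro h P _ hσ
    exact h P (hσ.map fun σ => σ.comp e.symm.toRingHom)

include e in
theorem exc_congr (p q n D r R : ℕ) : Exc p q n D r R k = Exc p q n D r R k' := by
  unfold Exc
  simp only [bd_congr e]

end congr

/-- The data of a family and a number field. -/
def MData : Type :=
  Σ t : ℕ × ℕ × ℕ, (Fin (t.1 + (t.2.1 + (t.2.2 + 2))) → ℕ) × ℚ[X] × ℕ × ℕ × ℕ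

instance : Countable MData := by
  have h2 := countable_pol
  unfold MData
  infer_instance

/-- The conditions for the numbers. -/
def Cond (p s n D r R : ℕ) : Prop :=
  p.Prime ∧ 0 < n ∧ 2 ≤ D ∧ n ≤ r + 1 ∧ p ^ (s + 1) * r < n + D ∧ p.Coprime (n + D) ∧ Odd R ∧
    p.Coprime R

/-- The exceptions. -/
def MBad (F : ℕ → Finset ℝ) (a : ℕ → ℝ → ℝ) (φ : MData) : Set ℕ :=
  {m | ∃ _ : Fact (Irreducible φ.2.2.1),
    Cond φ.2.2.2.1 φ.2.2.2.2.1 φ.1.1 φ.1.2.1 φ.1.2.2 φ.2.2.2.2.2 ∧ Function.Injective φ.2.1 ∧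
    (fun i => flo F a (φ.2.1 i) m) ∈ Exc φ.2.2.2.1 (φ.2.2.2.1 ^ (φ.2.2.2.2.1 + 1)) φ.1.1 φ.1.2.1 φ.1.2.2
      φ.2.2.2.2.2 (AdjoinRoot φ.2.2.1)}

theorem many {F : ℕ → Finset ℝ} {a : ℕ → ℝ → ℝ} {c : ℕ → ℝ}
    (hP : ∀ i, c i ∈ F i ∧ (∀ t ∈ F i, t ≤ c i) ∧ 0 < c i ∧ (∀ m : ℕ, c i ≠ m) ∧ 0 < a i (c i))
    (hc : Function.Injective c) :
    ∃ E : Set ℕ, NullIn (fun N => Ioc N (2 * N)) E ∧ NullIn primes E ∧
      ∀ (p s n D r R : ℕ) (_ : p.Prime) (_ : 0 < n) (_ : 2 ≤ D) (_ : n ≤ r + 1)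
        (_ : p ^ (s + 1) * r < n + D) (_ : p.Coprime (n + D)) (_ : Odd R) (_ : p.Coprime R)
        (k : Type) [Field k] [NumberField k] (ζ η : k) (_ : IsPrimitiveRoot ζ (p ^ (s + 1)))
        (_ : η ^ p = -1) (σ : Fin (n + (D + (r + 2))) → ℕ) (_ : Function.Injective σ),
        {m : ℕ | m ∉ E ∧ ¬ ManyWorks p (p ^ (s + 1)) n D r R k (fun i => flo F a (σ i) m)}.Finite := by
  classical
  have hnull : ∀ φ : MData, NullIn (fun N => Ioc N (2 * N)) (MBad F a φ) ∧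
      NullIn primes (MBad F a φ) := by
    rintro ⟨⟨n, D, r⟩, σ, f, p, s, R⟩
    by_cases hyp : Irreducible f ∧ Cond p s n D r R ∧ Function.Injective σ
    · obtain ⟨hf, ⟨hp, hn, hD, hnr, hqr, hcop, hR, hpR⟩, hσ⟩ := hyp
      have hfF : Fact (Irreducible f) := ⟨hf⟩
      have : NeZero (n + (D + (r + 2))) := ⟨by omega⟩
      obtain ⟨⟨κ₁, hκ₁, g₁⟩, ⟨κ₂, hκ₂, g₂⟩⟩ := fl_well (ι := Fin (n + (D + (r + 2))))
        (F := fun i => F (σ i)) (a := fun i => a (σ i)) (c := fun i => c (σ i)) (fun i => hP (σ i))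
        (hc.comp hσ)
      have hcop' : (p ^ (s + 1)).Coprime (R * (n + D)) := (hpR.mul_right hcop).pow_left _
      have hnf : NumberField (AdjoinRoot f) := numberField_adjoinRoot f
      have hq0 : 0 < p ^ (s + 1) := Nat.pow_pos hp.pos
      refine ⟨NullIn.mono (exc_thin hκ₁ g₁ hp hq0 hn hD hnr hqr hR hcop' (AdjoinRoot f)) ?_,
        NullIn.mono (exc_thin hκ₂ g₂ hp hq0 hn hD hnr hqr hR hcop' (AdjoinRoot f)) ?_⟩
      · rintro m ⟨h1, h2, h3, h4⟩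
        exact h4
      · rintro m ⟨h1, h2, h3, h4⟩
        exact h4
    · have hsub : MBad F a ⟨⟨n, D, r⟩, σ, f, p, s, R⟩ ⊆ ∅ := by
        rintro m ⟨⟨h1⟩, h2, h3, -⟩
        exact absurd ⟨h1, h2, h3⟩ hyp
      exact ⟨NullIn.mono (nullIn_empty _) hsub, NullIn.mono (nullIn_empty _) hsub⟩
  obtain ⟨E, h1, h2, h3⟩ := diag_countable (S₁ := fun N => Ioc N (2 * N)) (S₂ := primes)
    (fun N => Finset.Subset.refl _) (fun N => Finset.filter_subset _ _) (MBad F a)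
    (fun φ => (hnull φ).1) (fun φ => (hnull φ).2)
  refine ⟨E, h1, h2, ?_⟩
  intro p s n D r R hp hn hD hnr hqr hcop hR hpR k _ _ ζ η hζ hη σ hσ
  obtain ⟨f, hf, ⟨e⟩⟩ := exists_adjoinRoot k
  refine (h3 ⟨⟨n, D, r⟩, σ, f, p, s, R⟩).subset ?_
  rintro m ⟨hmE, hm⟩
  refine ⟨⟨hf, ⟨hp, hn, hD, hnr, hqr, hcop, hR, hpR⟩, hσ, ?_⟩, hmE⟩
  by_contra hcon
  apply hm
  change (fun i => flo F a (σ i) m) ∉ Exc p (p ^ (s + 1)) n D r R (AdjoinRoot f) at hcon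
  rw [exc_congr e p (p ^ (s + 1)) n D r R] at hcon
  obtain ⟨t1, t2, t3, t4, t5, t6⟩ := exc_some hcon
  exact works_of Pool.Agent.Y833.EN.st_cond hp rfl hn hD hqr hcop hR hpR hζ hη t1 t2 t3 t4 t5 t6

end Pool.Agent.N650.TH
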