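import Pool.Agent.N650.TH.Sieve
import Pool.Agent.N650.TH.Fam

set_option autoImplicit false
set_option linter.unusedSectionVars false

/-! # Number fields, countability and finite unions -/

namespace Pool.Agent.N650.TH

open Finset Polynomial Pool.Agent.N666.TM

theorem NullIn.iUnion {S : ℕ → Finset ℕ} {α : Type} [Finite α] {E : α → Set ℕ}
    (h : ∀ j, NullIn S (E j)) : NullIn S (⋃ j, E j) := by
  classical
  have := Fintype.ofFinite α
  have key : ∀ s : Finset α, NullIn S (⋃ i ∈ s, E i) := by
    intro s
    induction s using Finset.induction_on with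
    | empty => simpa using nullIn_empty S
    | insert a s ha ih =>
      rw [Finset.set_biUnion_insert]
      exact NullIn.union (h a) ih
  have := key Finset.univ
  simpa using this

/-- Each number field is generated by a root of an irreducible polynomial. -/
theorem exists_adjoinRoot (k : Type) [Field k] [NumberField k] :
    ∃ f : ℚ[X], ∃ _ : Fact (Irreducible f), Nonempty (AdjoinRoot f ≃+* k) := by
  obtain ⟨α, hα⟩ := Field.exists_primitive_element ℚ k
  have hint : IsIntegral ℚ α := IsIntegral.of_finite ℚ α
  refine ⟨minpoly ℚ α, ⟨minpoly.irreducible hint⟩, ⟨?_⟩⟩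
  have e1 := IntermediateField.adjoinRootEquivAdjoin ℚ hint
  have e2 : IntermediateField.adjoin ℚ {α} ≃ₐ[ℚ] k :=
    (IntermediateField.equivOfEq hα).trans IntermediateField.topEquiv
  exact (e1.trans e2).toRingEquiv

theorem numberField_adjoinRoot (f : ℚ[X]) [hf : Fact (Irreducible f)] : NumberField (AdjoinRoot f) := by
  have h1 : CharZero (AdjoinRoot f) :=
    charZero_of_injective_algebraMap (algebraMap ℚ (AdjoinRoot f)).injective
  have h2 : FiniteDimensional ℚ (AdjoinRoot f) := (AdjoinRoot.powerBasis hf.out.ne_zero).finite
  exact { to_charZero := h1, to_finiteDimensional := h2 }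

end Pool.Agent.N650.TH
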