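import Pool.Agent.N650.TH.Bdd

set_option autoImplicit false
set_option linter.unusedSectionVars false

/-! # A sieve with a positive proportion for thin sequences; one null set for countably many sets -/

namespace Pool.Agent.N650.TH

open Finset Filter Pool.Agent.Y722.HS Pool.Agent.N666.TM
open Pool.Agent.N666.VE (primes)

/-- One null set for countably many null sets. -/
theorem diag_countable {Φ : Type*} [Countable Φ] {S₁ S₂ : ℕ → Finset ℕ}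
    (hS₁ : ∀ N, S₁ N ⊆ Ioc N (2 * N)) (hS₂ : ∀ N, S₂ N ⊆ Ioc N (2 * N)) (B : Φ → Set ℕ)
    (h₁ : ∀ φ, NullIn S₁ (B φ)) (h₂ : ∀ φ, NullIn S₂ (B φ)) :
    ∃ E : Set ℕ, NullIn S₁ E ∧ NullIn S₂ E ∧ ∀ φ, (B φ \ E).Finite := by
  classical
  obtain ⟨f, hf⟩ := exists_injective_nat Φ
  set C : ℕ → Set ℕ := fun j => {t | ∃ φ, f φ = j ∧ t ∈ B φ} with hC
  have hCn : ∀ j, NullIn S₁ (C j) ∧ NullIn S₂ (C j) := by
    intro j
    by_cases hj : ∃ φ, f φ = j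
    · obtain ⟨φ, hφ⟩ := hj
      have hsub : C j ⊆ B φ := by
        rintro t ⟨φ', hφ', ht⟩
        have : φ' = φ := hf (hφ'.trans hφ.symm)
        exact this ▸ ht
      exact ⟨NullIn.mono (h₁ φ) hsub, NullIn.mono (h₂ φ) hsub⟩
    · have hsub : C j ⊆ ∅ := by
        rintro t ⟨φ', hφ', ht⟩
        exact absurd ⟨φ', hφ'⟩ hj
      exact ⟨NullIn.mono (nullIn_empty _) hsub, NullIn.mono (nullIn_empty _) hsub⟩
  set E : ℕ → Set ℕ := fun k => {t | ∃ j < k, t ∈ C j} with hE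
  have hmono : Monotone E := by
    rintro k k' hkk t ⟨j, hj, ht⟩
    exact ⟨j, lt_of_lt_of_le hj hkk, ht⟩
  obtain ⟨E', h1, h2, h3⟩ := diag hmono hS₁ hS₂ (fun k => NullIn.biUnion k fun j _ => (hCn j).1)
    (fun k => NullIn.biUnion k fun j _ => (hCn j).2)
  refine ⟨E', h1, h2, fun φ => (h3 (f φ + 1)).subset ?_⟩
  rintro t ⟨ht, ht'⟩
  exact ⟨⟨f φ, by omega, φ, rfl, ht⟩, ht'⟩

section
variable {ι : Type} [Fintype ι] [DecidableEq ι]

/-- Members of a well distributed sequence which avoid a positive proportion of the classes modulo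
infinitely many primes have density zero. -/
theorem thin_sieve {S : ℕ → Finset ℕ} {x : ℕ → ι → ℤ} {κ : ℝ} (hκ : 0 < κ)
    (hw : ∃ N₀ : ℕ, ∀ N : ℕ, N₀ ≤ N → ∀ H : ℕ, (H : ℝ) ≤ (N : ℝ) ^ κ → Well (S N) x H)
    {D : ℕ} (hD : 0 < D) (Bad : Set (ι → ℤ))
    (h : ∀ B : ℕ, ∃ P : ℕ, B < P ∧ P.Prime ∧ ∃ G : Finset (ι → ZMod P),
      P ^ Fintype.card ι ≤ D * G.card ∧ ∀ v ∈ Bad, (fun i => ((v i : ℤ) : ZMod P)) ∉ G) :
    NullIn S {m : ℕ | x m ∈ Bad} := by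
  classical
  intro ε hε
  obtain ⟨N₁, hN₁⟩ := hw
  have hDR : (0 : ℝ) < D := by exact_mod_cast hD
  -- the primes
  set PP : Set ℕ := {P | P.Prime ∧ ∃ G : Finset (ι → ZMod P),
      P ^ Fintype.card ι ≤ D * G.card ∧ ∀ v ∈ Bad, (fun i => ((v i : ℤ) : ZMod P)) ∉ G} with hPP
  have hinf : PP.Infinite := by
    refine Set.infinite_of_forall_exists_gt fun B => ?_
    obtain ⟨P, h1, h2, h3⟩ := h B
    exact ⟨P, ⟨h2, h3⟩, h1⟩
  obtain ⟨t, ht, htc⟩ := hinf.exists_subset_card_eq (⌈4 * D / ε⌉₊ + 1)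
  have hG : ∀ P : ℕ, ∃ G : Set (ι → ZMod P), P ∈ t → (P : ℝ) ^ Fintype.card ι ≤ D * (G.ncard : ℝ) ∧
      ∀ v ∈ Bad, (fun i => ((v i : ℤ) : ZMod P)) ∉ G := by
    intro P
    by_cases hP : P ∈ t
    · obtain ⟨-, G, h1, h2⟩ := ht hP
      refine ⟨(G : Set _), fun _ => ⟨?_, fun v hv hm => h2 v hv (Finset.mem_coe.mp hm)⟩⟩
      rw [Set.ncard_coe_finset]
      exact_mod_cast h1
    · exact ⟨∅, fun h' => absurd h' hP⟩
  choose Ω hΩ using hG
  have hpr : ∀ p ∈ t, p.Prime := fun p hp => (ht hp).1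
  set μ : ℝ := ∑ p ∈ t, Pool.Agent.N666.TM.dens (Ω p) with hμ
  have hμge : 4 / ε ≤ μ := by
    have h1 : ∀ p ∈ t, 1 / (D : ℝ) ≤ Pool.Agent.N666.TM.dens (Ω p) := by
      intro p hp
      unfold Pool.Agent.N666.TM.dens
      have hp0 : (0 : ℝ) < (p : ℝ) ^ Fintype.card ι := by
        have := (hpr p hp).pos
        positivity
      rw [div_le_div_iff₀ hDR hp0, one_mul, mul_comm]
      exact (hΩ p hp).1
    have h2 : (t.card : ℝ) * (1 / D) ≤ μ := by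
      rw [hμ, ← nsmul_eq_mul]
      exact Finset.card_nsmul_le_sum t _ _ h1
    have h3 : 4 * D / ε ≤ (t.card : ℝ) := by
      rw [htc]
      push_cast
      exact (Nat.le_ceil _).trans (by linarith)
    calc 4 / ε = 4 * D / ε * (1 / D) := by field_simp
      _ ≤ (t.card : ℝ) * (1 / D) := by gcongr
      _ ≤ μ := h2
  have hμ0 : 0 < μ := lt_of_lt_of_le (by positivity) hμge
  set y : ℕ := t.sup id with hy
  have hty : ∀ p ∈ t, p ≤ y := fun p hp => Finset.le_sup (f := id) hp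
  set H : ℕ := y ^ 2 + ⌈8 / ε⌉₊ with hH
  have hev : ∀ᶠ N : ℕ in atTop, ((H : ℕ) : ℝ) ≤ (N : ℝ) ^ κ := by
    have h1 : Tendsto (fun N : ℕ => (N : ℝ) ^ κ) atTop atTop :=
      (tendsto_rpow_atTop hκ).comp tendsto_natCast_atTop_atTop
    exact h1.eventually_ge_atTop _
  obtain ⟨N₂, hN₂⟩ := eventually_atTop.mp hev
  refine ⟨max N₁ N₂, fun N hN => ?_⟩
  have hws := hN₁ N ((le_max_left _ _).trans hN) H (hN₂ N ((le_max_right _ _).trans hN))
  have h1 := turan hws t (fun p => p) (fun p hp => (hpr p hp).one_lt.le)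
    (fun p hp p' hp' hne => (Nat.coprime_primes (hpr p hp) (hpr p' hp')).mpr hne)
    (fun p hp p' hp' => by
      calc p * p' ≤ y * y := Nat.mul_le_mul (hty p hp) (hty p' hp')
        _ = y ^ 2 := by ring
        _ ≤ 2 * H + 1 := by omega) Ω μ hμ hμ0
  have hsub : {m : ℕ | m ∈ S N ∧ m ∈ {m : ℕ | x m ∈ Bad}} ⊆
      (((S N).filter fun n => ∀ p ∈ t, red p (x n) ∉ Ω p : Finset ℕ) : Set ℕ) := by
    rintro m ⟨hm, hm'⟩
    rw [Finset.mem_coe, Finset.mem_filter]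
    exact ⟨hm, fun p hp => (hΩ p hp).2 _ hm'⟩
  have h2 : ({m : ℕ | m ∈ S N ∧ m ∈ {m : ℕ | x m ∈ Bad}}.ncard : ℝ) ≤
      (((S N).filter fun n => ∀ p ∈ t, red p (x n) ∉ Ω p).card : ℝ) := by
    have := Set.ncard_le_ncard hsub (Finset.finite_toSet _)
    rw [Set.ncard_coe_finset] at this
    exact_mod_cast this
  refine h2.trans (h1.trans ?_)
  have h3 : 2 / μ ≤ ε / 2 := by
    rw [div_le_iff₀ hμ0]
    rw [div_le_iff₀ hε] at hμge
    linarith
  have h4 : (4 : ℝ) / (2 * H + 1) ≤ ε / 2 := by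
    have h5 : 8 / ε ≤ (H : ℝ) := (Nat.le_ceil _).trans (by exact_mod_cast (by omega : ⌈8 / ε⌉₊ ≤ H))
    rw [div_le_iff₀ hε] at h5
    rw [div_le_iff₀ (by positivity)]
    nlinarith
  have h5 : (0 : ℝ) ≤ (S N).card := Nat.cast_nonneg _
  calc (2 / μ + 4 / (2 * H + 1)) * (S N).card ≤ (ε / 2 + ε / 2) * (S N).card := by gcongr
    _ = ε * (S N).card := by ring

end

end Pool.Agent.N650.TH
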