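import Pool.Agent.N650.TH.Nf
import Pool.Agent.R431.SG.MainS

set_option autoImplicit false
set_option linter.unusedSectionVars false

/-! # Thin sequences of superelliptic curves over `k(t)` -/

open scoped Classical

namespace Pool.Agent.N650.TH

open Finset Filter Polynomial Pool.Agent.N666.TM NumberField
open Pool.Agent.N666.VE (primes)
open Pool.Agent.R431.SG Pool.Agent.Y713

/-- The criterion for one tuple. -/
theorem star_point {k : Type} [Field k] [NumberField k] {ℓ : ℕ} (hℓ : ℓ.Prime) {ζ : k}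
    (hζ : IsPrimitiveRoot ζ ℓ) {M m : ℕ} (hM : 2 ≤ M) (hN : ¬ ℓ ∣ M + 1) (hm : 2 ≤ m)
    (c : Fin (M + 1) × Fin (m + 3) → 𝓞 k)
    (hall : ∀ S : Fin M × Option (Option ((Fin M × Fin M) ⊕ (Fin M × Fin M → Fin ℓ))),
      ∃ (p : ℕ) (_ : Fact p.Prime) (σ : 𝓞 k →+* ℤ_[p]),
        trn S.1 (fun q => red σ (c q)) ∈ ObsL ℓ M m S.2 p) :
    ∀ δ : k, δ ≠ 0 → Jac.ShaPrimaryTrivial ℓ (C (algebraMap k[X] (RatFunc k) (C δ)) *
      ∏ i : Fin (M + 1), (X - C (algebraMap k[X]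
        (RatFunc k) (gp (fun q => algebraMap (𝓞 k) k (c q)) i)))) k[X] := by
  have hdata : ∀ i : Fin M, _ := fun i => tuple_data (ζ := ζ) hℓ hζ (N := M) (m := m) (by omega)
    (trn i c) (by
      intro S
      obtain ⟨p, hp, σ, ho⟩ := hall (i, S)
      refine ⟨p, hp, σ, ?_⟩
      rw [trn_map]
      exact ho)
  have i0 : Fin M := ⟨0, by omega⟩
  have hmap : ∀ i : Fin M, (fun q => algebraMap (𝓞 k) k (trn i c q)) =
      trn i fun q => algebraMap (𝓞 k) k (c q) := fun i => trn_map _ i c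
  have hg0 : ∀ i : Fin M, gp (fun q => algebraMap (𝓞 k) k (trn i c q)) 0 =
      gp (fun q => algebraMap (𝓞 k) k (c q)) 0 -
        gp (fun q => algebraMap (𝓞 k) k (c q)) i.succ := by
    intro i
    rw [hmap, gp_trn_zero]
  have hgs : ∀ i j : Fin M, gp (fun q => algebraMap (𝓞 k) k (trn i c q)) j.succ =
      gp (fun q => algebraMap (𝓞 k) k (c q)) j.succ := by
    intro i j
    rw [hmap, gp_trn_succ]
  simp only [hg0, hgs] at hdata
  obtain ⟨T, hT, hbad, hTD⟩ := obs_data hℓ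
    (fun i : Fin M => gp (fun q => algebraMap (𝓞 k) k (c q)) i.succ) (hdata i0).2.2.1
  have hall2 := fun i : Fin M => hTD _ (hdata i).1 (hdata i).2.2.2
  intro δ hδne
  have hcons : (fun i => gp (fun q => algebraMap (𝓞 k) k (c q)) i) =
      (Fin.cons (gp (fun q => algebraMap (𝓞 k) k (c q)) 0)
        (fun i : Fin M => gp (fun q => algebraMap (𝓞 k) k (c q)) i.succ) :
          Fin (M + 1) → k[X]) := by
    funext i
    rcases Fin.eq_zero_or_eq_succ i with rfl | ⟨j, rfl⟩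
    · rfl
    · rfl
  have hcons' : ∀ i, gp (fun q => algebraMap (𝓞 k) k (c q)) i =
      (Fin.cons (gp (fun q => algebraMap (𝓞 k) k (c q)) 0)
        (fun i : Fin M => gp (fun q => algebraMap (𝓞 k) k (c q)) i.succ) :
          Fin (M + 1) → k[X]) i := fun i => congrFun hcons i
  have hprod : ∏ i : Fin (M + 1), (X - C (algebraMap k[X] (RatFunc k)
      (gp (fun q => algebraMap (𝓞 k) k (c q)) i))) =
      ∏ i : Fin (M + 1), (X - C (algebraMap k[X] (RatFunc k)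
        ((Fin.cons (gp (fun q => algebraMap (𝓞 k) k (c q)) 0)
        (fun i : Fin M => gp (fun q => algebraMap (𝓞 k) k (c q)) i.succ) :
          Fin (M + 1) → k[X]) i))) :=
    Finset.prod_congr rfl fun i _ => by rw [← hcons' i]
  rw [hprod]
  exact star_crit (RatFunc k) hℓ (by exact_mod_cast hℓ.ne_zero) hζ hM hN T hT hbad
    (fun i => (hdata i).1) (fun i => (hdata i).2.1) (fun i => (hall2 i).1)
    (fun i => (hall2 i).2.1) (fun i => (hall2 i).2.2) hδne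

section bad

variable {k : Type} [Field k] {J I : Type} [Fintype J] [Fintype I]

/-- The integral vectors without obstruction. -/
def NoOb (B : J → 𝓞 k) (p0 : ℕ) (Obs : ∀ (p : ℕ) [Fact p.Prime], Set (I → ZMod p)) :
    Set (I × J → ℤ) :=
  {y | ∀ (p : ℕ) [Fact p.Prime] (σ : 𝓞 k →+* ℤ_[p]), p0 ≤ p →
    (fun i => red σ (∑ j, (y (i, j) : 𝓞 k) * B j)) ∉ Obs p}

theorem noOb_congr {k' : Type} [Field k'] (e : 𝓞 k' ≃+* 𝓞 k) (B : J → 𝓞 k) (p0 : ℕ)
    (Obs : ∀ (p : ℕ) [Fact p.Prime], Set (I → ZMod p)) :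
    NoOb B p0 Obs = NoOb (fun j => e.symm (B j)) p0 Obs := by
  ext y
  constructor
  · intro h p _ σ hp
    have := h p (σ.comp (e.symm : 𝓞 k →+* 𝓞 k')) hp
    convert this using 2
    funext i
    unfold red
    simp only [RingHom.comp_apply]
    congr 2
    simp [map_sum]
  · intro h p _ σ hp
    have := h p (σ.comp (e : 𝓞 k' →+* 𝓞 k)) hp
    convert this using 2
    funext i
    unfold red
    simp only [RingHom.comp_apply]
    congr 2
    simp [map_sum]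

theorem noOb_thin [NumberField k] (B : Module.Basis J ℤ (𝓞 k)) {δ : ℝ} (hδ0 : 0 < δ) (p0 : ℕ)
    (Obs : ∀ (p : ℕ) [Fact p.Prime], Set (I → ZMod p))
    (hc : ∀ (p : ℕ) [Fact p.Prime] (_ : 𝓞 k →+* ℤ_[p]), p0 ≤ p →
      δ * (p : ℝ) ^ Fintype.card I ≤ ((Obs p).ncard : ℝ))
    {S : ℕ → Finset ℕ} {x : ℕ → I × J → ℤ} {κ : ℝ} (hκ : 0 < κ)
    (hw : ∃ N₀ : ℕ, ∀ N : ℕ, N₀ ≤ N → ∀ H : ℕ, (H : ℝ) ≤ (N : ℝ) ^ κ → Well (S N) x H) :
    NullIn S {m | x m ∈ NoOb B p0 Obs} := by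
  have hD : 0 < ⌈1 / δ⌉₊ := Nat.ceil_pos.mpr (by positivity)
  refine thin_sieve hκ hw hD (NoOb B p0 Obs) fun A => ?_
  obtain ⟨p, hp, h1, ⟨σ⟩⟩ := exists_emb k (A + p0)
  have hfin : {y : I × J → ZMod p | rd B σ I y ∈ Obs p}.Finite := Set.toFinite _
  refine ⟨p, by omega, hp.out, hfin.toFinset, ?_, ?_⟩
  · have h3 := hc p σ (by omega)
    have h4 := Pool.Agent.R431.SG.proportion (rd B σ I) (rd_surj B σ) (Obs p) (δ := δ)
      (Ω := {y : I × J → ZMod p | rd B σ I y ∈ Obs p}) (by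
      rw [Fintype.card_fun, ZMod.card, Nat.cast_pow]
      exact h3) (fun x hx => hx)
    rw [Fintype.card_fun, ZMod.card, Nat.cast_pow] at h4
    have h5 : (({y : I × J → ZMod p | rd B σ I y ∈ Obs p}.ncard : ℕ) : ℝ) = (hfin.toFinset.card : ℝ) := by
      rw [Set.ncard_eq_toFinset_card _ hfin]
    rw [h5] at h4
    have h6 : (p : ℝ) ^ Fintype.card (I × J) ≤ (⌈1 / δ⌉₊ : ℝ) * hfin.toFinset.card := by
      have h7 : (p : ℝ) ^ Fintype.card (I × J) ≤ 1 / δ * hfin.toFinset.card := by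
        rw [one_div, inv_mul_eq_div, le_div_iff₀ hδ0, mul_comm]
        exact h4
      refine h7.trans ?_
      gcongr
      exact Nat.le_ceil _
    exact_mod_cast h6
  · intro v hv hmem
    rw [Set.Finite.mem_toFinset] at hmem
    refine hv p σ (by omega) ?_
    have e1 : rd B σ I (fun q => ((v q : ℤ) : ZMod p)) =
        fun i => red σ (∑ j, (v (i, j) : 𝓞 k) * B j) := by
      funext i
      show ∑ j, ((v (i, j) : ℤ) : ZMod p) * red σ (B j) = red σ (∑ j, (v (i, j) : 𝓞 k) * B j)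
      rw [map_sum]
      refine Finset.sum_congr rfl fun j _ => ?_
      rw [map_mul, map_intCast]
    have hmem' : rd B σ I (fun q => ((v q : ℤ) : ZMod p)) ∈ Obs p := hmem
    rw [e1] at hmem'
    exact hmem'

end bad

section one

/-- The obstructions which are used. -/
def SObs (ℓ M m : ℕ) (S : Fin M × Option (Option ((Fin M × Fin M) ⊕ (Fin M × Fin M → Fin ℓ))))
    (p : ℕ) [Fact p.Prime] : Set (Fin (M + 1) × Fin (m + 3) → ZMod p) :=
  {c | trn S.1 c ∈ ObsL ℓ M m S.2 p}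

/-- The bound for the primes. -/
def sp0 (ℓ M : ℕ) : ℕ := 1600 + (4 * M + 6) + 2 * (M * M) + ℓ + 1

/-- The exceptions. -/
def SExc {k : Type} [Field k] {d : ℕ} (B : Fin d → 𝓞 k) (ℓ M m : ℕ) :
    Set ((Fin (M + 1) × Fin (m + 3)) × Fin d → ℤ) :=
  ⋃ S : Fin M × Option (Option ((Fin M × Fin M) ⊕ (Fin M × Fin M → Fin ℓ))),
    NoOb B (sp0 ℓ M) (fun p _ => SObs ℓ M m S p)

theorem sexc_thin {k : Type} [Field k] [NumberField k] {d : ℕ} (B : Module.Basis (Fin d) ℤ (𝓞 k))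
    {ℓ : ℕ} (hℓ : ℓ.Prime) {ζ' : 𝓞 k} (hζ' : IsPrimitiveRoot ζ' ℓ) {M m : ℕ} (hm : 2 ≤ m)
    {S : ℕ → Finset ℕ} {x : ℕ → (Fin (M + 1) × Fin (m + 3)) × Fin d → ℤ} {κ : ℝ} (hκ : 0 < κ)
    (hw : ∃ N₀ : ℕ, ∀ N : ℕ, N₀ ≤ N → ∀ H : ℕ, (H : ℝ) ≤ (N : ℝ) ^ κ → Well (S N) x H) :
    NullIn S {t | x t ∈ SExc (fun j => B j) ℓ M m} := by
  have h1 : NullIn S (⋃ T : Fin M × Option (Option ((Fin M × Fin M) ⊕ (Fin M × Fin M → Fin ℓ))),
      {t | x t ∈ NoOb (fun j => B j) (sp0 ℓ M) (fun p _ => SObs ℓ M m T p)}) := by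
    refine NullIn.iUnion fun T => ?_
    refine noOb_thin B (δ := 1 / (2048 * ((m + 2 : ℕ) : ℝ) ^ 2)) (by positivity) (sp0 ℓ M)
      (fun p _ => SObs ℓ M m T p) ?_ hκ hw
    intro p _ σ hp
    unfold SObs
    rw [card_trn]
    exact card_ObsL hℓ hζ' hm T.2 p σ hp
  refine NullIn.mono h1 ?_
  intro t ht
  unfold SExc at ht
  simp only [Set.mem_ofPred_eq, Set.mem_iUnion] at ht ⊢
  exact ht

theorem sexc_congr {k k' : Type} [Field k] [Field k'] (e : 𝓞 k' ≃+* 𝓞 k) {d : ℕ} (B : Fin d → 𝓞 k)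
    (ℓ M m : ℕ) : SExc B ℓ M m = SExc (fun j => e.symm (B j)) ℓ M m := by
  unfold SExc
  simp only [noOb_congr e B]

/-- The data of a family, a number field and an integral basis. -/
def SData : Type :=
  Σ t : ℕ × ℕ × ℕ, ((Fin (t.2.1 + 1) × Fin (t.2.2 + 3)) × Fin t.1 → ℕ) × ℚ[X] × (Fin t.1 → ℚ[X]) × ℕ

instance : Countable SData := by
  have h2 := countable_pol
  unfold SData
  infer_instance

/-- The exceptions. -/
def SBad (F : ℕ → Finset ℝ) (a : ℕ → ℝ → ℝ) (φ : SData) : Set ℕ :=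
  {t | ∃ (_ : Fact (Irreducible φ.2.2.1)) (_ : NumberField (AdjoinRoot φ.2.2.1))
    (B : Module.Basis (Fin φ.1.1) ℤ (𝓞 (AdjoinRoot φ.2.2.1)))
    (ζ' : 𝓞 (AdjoinRoot φ.2.2.1)), IsPrimitiveRoot ζ' φ.2.2.2.2 ∧ φ.2.2.2.2.Prime ∧
    2 ≤ φ.1.2.2 ∧ Function.Injective φ.2.1 ∧
    (∀ j, algebraMap (𝓞 (AdjoinRoot φ.2.2.1)) (AdjoinRoot φ.2.2.1) (B j) =
      AdjoinRoot.mk φ.2.2.1 (φ.2.2.2.1 j)) ∧
    (fun q => flo F a (φ.2.1 q) t) ∈ SExc (fun j => B j) φ.2.2.2.2 φ.1.2.1 φ.1.2.2}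

theorem star {F : ℕ → Finset ℝ} {a : ℕ → ℝ → ℝ} {c : ℕ → ℝ}
    (hP : ∀ i, c i ∈ F i ∧ (∀ t ∈ F i, t ≤ c i) ∧ 0 < c i ∧ (∀ m : ℕ, c i ≠ m) ∧ 0 < a i (c i))
    (hc : Function.Injective c) :
    ∃ E : Set ℕ, NullIn (fun N => Ioc N (2 * N)) E ∧ NullIn primes E ∧
      ∀ (k : Type) [Field k] [NumberField k] (d : ℕ) (B : Module.Basis (Fin d) ℤ (𝓞 k)) (ℓ : ℕ)
        (_ : ℓ.Prime) (ζ : k) (_ : IsPrimitiveRoot ζ ℓ) (M : ℕ) (_ : 2 ≤ M) (_ : ¬ ℓ ∣ M + 1) (m : ℕ)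
        (_ : 2 ≤ m) (σ : (Fin (M + 1) × Fin (m + 3)) × Fin d → ℕ) (_ : Function.Injective σ),
        {t : ℕ | t ∉ E ∧ ¬ ∀ δ : k, δ ≠ 0 → Jac.ShaPrimaryTrivial ℓ
          (C (algebraMap k[X] (RatFunc k) (C δ)) * ∏ i : Fin (M + 1), (X - C (algebraMap k[X]
            (RatFunc k) (gp (fun q => algebraMap (𝓞 k) k
              (∑ j, ((flo F a (σ (q, j)) t : ℤ) : 𝓞 k) * B j)) i)))) k[X]}.Finite := by
  have hnull : ∀ φ : SData, NullIn (fun N => Ioc N (2 * N)) (SBad F a φ) ∧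
      NullIn primes (SBad F a φ) := by
    rintro ⟨⟨d, M, m⟩, σ, f, g, ℓ⟩
    by_cases hyp : ∃ (_ : Fact (Irreducible f)) (_ : NumberField (AdjoinRoot f))
        (B : Module.Basis (Fin d) ℤ (𝓞 (AdjoinRoot f)))
        (ζ' : 𝓞 (AdjoinRoot f)), IsPrimitiveRoot ζ' ℓ ∧ ℓ.Prime ∧
        2 ≤ m ∧ Function.Injective σ ∧
        (∀ j, algebraMap (𝓞 (AdjoinRoot f)) (AdjoinRoot f) (B j) = AdjoinRoot.mk f (g j))
    · obtain ⟨hf, hnf, B, ζ', hζ', hℓ, hm, hσ, hB⟩ := hyp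
      have : Nonempty (Fin d) := by
        by_contra hne
        have h0 := B.sum_repr (1 : 𝓞 (AdjoinRoot f))
        rw [not_nonempty_iff] at hne
        rw [Fintype.sum_empty] at h0
        exact zero_ne_one h0
      have : Nonempty ((Fin (M + 1) × Fin (m + 3)) × Fin d) := inferInstance
      obtain ⟨⟨κ₁, hκ₁, g₁⟩, ⟨κ₂, hκ₂, g₂⟩⟩ := fl_well (ι := (Fin (M + 1) × Fin (m + 3)) × Fin d)
        (F := fun i => F (σ i)) (a := fun i => a (σ i)) (c := fun i => c (σ i)) (fun i => hP (σ i))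
        (hc.comp hσ)
      have hsub : SBad F a ⟨⟨d, M, m⟩, σ, f, g, ℓ⟩ ⊆
          {t | (fun i => fl (fun i => F (σ i)) (fun i => a (σ i)) t i) ∈ SExc (fun j => B j) ℓ M m} := by
        rintro t ⟨h1, h2, B', ζ'', h3, h4, h5, h6, h7, h8⟩
        have hBB : (fun j => B' j) = fun j => B j := by
          funext j
          apply FaithfulSMul.algebraMap_injective (𝓞 (AdjoinRoot f)) (AdjoinRoot f)
          rw [hB j]
          exact h7 j
        change (fun q => flo F a (σ q) t) ∈ SExc (fun j => B' j) ℓ M m at h8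
        rw [hBB] at h8
        exact h8
      exact ⟨NullIn.mono (sexc_thin B hℓ hζ' hm hκ₁ g₁) hsub,
        NullIn.mono (sexc_thin B hℓ hζ' hm hκ₂ g₂) hsub⟩
    · have hsub : SBad F a ⟨⟨d, M, m⟩, σ, f, g, ℓ⟩ ⊆ ∅ := by
        rintro t ⟨h1, h2, B', ζ'', h3, h4, h5, h6, h7, h8⟩
        exact absurd ⟨h1, h2, B', ζ'', h3, h4, h5, h6, h7⟩ hyp
      exact ⟨NullIn.mono (nullIn_empty _) hsub, NullIn.mono (nullIn_empty _) hsub⟩
  obtain ⟨E, h1, h2, h3⟩ := diag_countable (S₁ := fun N => Ioc N (2 * N)) (S₂ := primes)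
    (fun N => Finset.Subset.refl _) (fun N => Finset.filter_subset _ _) (SBad F a)
    (fun φ => (hnull φ).1) (fun φ => (hnull φ).2)
  refine ⟨E, h1, h2, ?_⟩
  intro k _ _ d B ℓ hℓ ζ hζ M hM hN m hm σ hσ
  obtain ⟨f, hf, ⟨e⟩⟩ := exists_adjoinRoot k
  have hnf : NumberField (AdjoinRoot f) := numberField_adjoinRoot f
  let eO : 𝓞 (AdjoinRoot f) ≃+* 𝓞 k := RingOfIntegers.mapRingEquiv e
  let B' : Module.Basis (Fin d) ℤ (𝓞 (AdjoinRoot f)) := B.map eO.symm.toAddEquiv.toIntLinearEquiv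
  have hB' : ∀ j, B' j = eO.symm (B j) := fun j => by
    simp [B']
  obtain ⟨ζ', hζ'⟩ : ∃ ζ' : 𝓞 k, IsPrimitiveRoot ζ' ℓ := by
    have hint : IsIntegral ℤ ζ := hζ.isIntegral hℓ.pos
    refine ⟨⟨ζ, hint⟩, ?_⟩
    refine IsPrimitiveRoot.of_map_of_injective (f := algebraMap (𝓞 k) k) ?_
      (FaithfulSMul.algebraMap_injective _ _)
    exact hζ
  have hg : ∀ j, ∃ g : ℚ[X], AdjoinRoot.mk f g =
      algebraMap (𝓞 (AdjoinRoot f)) (AdjoinRoot f) (B' j) := fun j =>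
    AdjoinRoot.mk_surjective _
  choose g hg using hg
  refine (h3 ⟨⟨d, M, m⟩, σ, f, g, ℓ⟩).subset ?_
  rintro t ⟨htE, ht⟩
  refine ⟨⟨hf, hnf, B', eO.symm ζ', ?_, hℓ, hm, hσ, fun j => (hg j).symm, ?_⟩, htE⟩
  · exact hζ'.map_of_injective (f := (eO.symm : 𝓞 k →+* 𝓞 (AdjoinRoot f))) eO.symm.injective
  · by_contra hcon
    apply ht
    change (fun q => flo F a (σ q) t) ∉ SExc (fun j => B' j) ℓ M m at hcon
    have hBB : (fun j => B' j) = fun j => eO.symm (B j) := funext hB'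
    rw [hBB, ← sexc_congr eO (fun j => B j)] at hcon
    unfold SExc at hcon
    rw [Set.mem_iUnion, not_exists] at hcon
    refine star_point hℓ hζ hM hN hm
      (fun q => ∑ j, ((flo F a (σ (q, j)) t : ℤ) : 𝓞 k) * B j) fun S => ?_
    have h4 := hcon S
    unfold NoOb at h4
    rw [Set.mem_ofPred_eq] at h4
    push Not at h4
    obtain ⟨p, hp, τ, -, h5⟩ := h4
    exact ⟨p, hp, τ, h5⟩

end one

end Pool.Agent.N650.TH
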